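import Pool.Agent.H37.CND.Stmts

set_option autoImplicit false

namespace Pool.CND

open Finset

theorem con_card (b : ℤ) (l : ℕ) (h1 : 1 ≤ b) (h2 : b ≤ l) :
    (((Icc 1 l).filter (fun i : ℕ => (i : ℤ) ≤ b)).card : ℤ) = b := by
  obtain ⟨n, rfl⟩ := Int.eq_ofNat_of_zero_le (show 0 ≤ b by omega)
  have h : (Icc 1 l).filter (fun i : ℕ => (i : ℤ) ≤ (n : ℤ)) = Icc 1 n := by
    ext i
    simp only [mem_filter, mem_Icc]
    omega
  rw [h, Nat.card_Icc]
  simp

theorem con_thm (hRAM : S_RAM) : S_CON := by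
  classical
  intro k L G _ _ _ _ _ P ρ W I c hinj hW hI hc
  obtain ⟨l, hl, hl1, hcc⟩ := hc
  rcases Nat.eq_zero_or_pos l with h0 | hpos
  · left
    rw [hcc, h0]
    simp
  right
  have one_mem : ∀ i : ℕ, (1 : G) ∈ ram P ρ i := by
    intro i
    refine ⟨?_, ?_⟩
    · rw [map_one]; exact Fixes.one
    · intro u _ _
      left
      rw [map_one]
      rfl
  have hne : ∀ g : G, g ≠ 1 → ρ g ≠ 1 := by
    intro g hg h
    apply hg
    apply hinj
    rw [h, map_one]
  have memW : ∀ g : G, g ∈ W ↔ g ∈ ram P ρ 1 := by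
    intro g
    rw [← hW]
    rfl
  -- membership
  have mem_iff : ∀ g : G, g ≠ 1 → ∀ i : ℕ, 1 ≤ i →
      (g ∈ ram P ρ i ↔ Fixes P (ρ g) ∧ (i : ℤ) ≤ P.b (ρ g)) := by
    intro g hg i hi
    rw [hRAM k L G P ρ g i hi]
    constructor
    · rintro ⟨h1, h2⟩
      exact ⟨h1, h2.resolve_left (hne g hg)⟩
    · rintro ⟨h1, h2⟩
      exact ⟨h1, Or.inr h2⟩
  have hWb : ∀ g ∈ W, g ≠ 1 → Fixes P (ρ g) ∧ 1 ≤ P.b (ρ g) ∧ P.b (ρ g) ≤ (l : ℤ) := by
    intro g hg hg1
    have h1 := (mem_iff g hg1 1 le_rfl).1 ((memW g).1 hg)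
    refine ⟨h1.1, by simpa using h1.2, ?_⟩
    by_contra hcon
    have h2 : g ∈ ram P ρ (l + 1) := by
      rw [mem_iff g hg1 (l + 1) (by omega)]
      refine ⟨h1.1, ?_⟩
      push_cast
      omega
    rw [hl1] at h2
    exact hg1 h2
  have hmemi : ∀ i : ℕ, 1 ≤ i → ∀ g : G, g ∈ ram P ρ i ↔
      g = 1 ∨ (g ∈ W ∧ g ≠ 1 ∧ (i : ℤ) ≤ P.b (ρ g)) := by
    intro i hi g
    by_cases hg : g = 1
    · subst hg
      exact ⟨fun _ => Or.inl rfl, fun _ => one_mem i⟩
    · rw [mem_iff g hg i hi]
      constructor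
      · rintro ⟨h1, h2⟩
        refine Or.inr ⟨?_, hg, h2⟩
        rw [memW, mem_iff g hg 1 le_rfl]
        refine ⟨h1, ?_⟩
        push_cast
        omega
      · intro h
        rcases h with h | ⟨h1, h2, h3⟩
        · exact absurd h hg
        · exact ⟨(hWb g h1 h2).1, h3⟩
  refine ⟨(l : ℤ), ⟨?_, ?_⟩, ?_⟩
  · -- exists
    have hex : ∃ g ∈ ram P ρ l, g ≠ 1 := by
      by_contra hcon
      push Not at hcon
      apply hl
      ext g
      constructor
      · intro hg
        exact hcon g hg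
      · intro hg
        rw [Set.mem_singleton_iff] at hg
        rw [hg]
        exact one_mem l
    obtain ⟨g, hg, hg1⟩ := hex
    rcases (hmemi l hpos g).1 hg with h | ⟨h1, h2, h3⟩
    · exact absurd h hg1
    · exact ⟨g, h1, h2, le_antisymm (hWb g h1 h2).2.2 h3⟩
  · intro g hg hg1
    exact (hWb g hg hg1).2.2
  · -- the sum
    have hcardI : (Nat.card I : ℚ) = ((ram P ρ 0).ncard : ℚ) := by
      rw [← hI]
      rfl
    have hIpos : (Nat.card I : ℚ) ≠ 0 := by
      have : 0 < Nat.card I := Nat.card_pos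
      exact_mod_cast this.ne'
    have hWpos : (Nat.card W : ℚ) ≠ 0 := by
      have : 0 < Nat.card W := Nat.card_pos
      exact_mod_cast this.ne'
    have hncard : ∀ i ∈ Icc 1 l, ((ram P ρ i).ncard : ℤ) =
        ∑ g : G, (if g ∈ ram P ρ i then (1 : ℤ) else 0) := by
      intro i _
      rw [Set.ncard_eq_toFinset_card']
      rw [Finset.sum_boole]
      have hs : (ram P ρ i).toFinset = univ.filter (fun g => g ∈ ram P ρ i) := by
        ext g
        simp
      rw [hs]
    have hswap : (∑ i ∈ Icc 1 l, ((ram P ρ i).ncard : ℤ)) =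
        ∑ g : G, ∑ i ∈ Icc 1 l, (if g ∈ ram P ρ i then (1 : ℤ) else 0) := by
      rw [Finset.sum_congr rfl hncard, Finset.sum_comm]
    have hinner : ∀ g : G, (∑ i ∈ Icc 1 l, (if g ∈ ram P ρ i then (1 : ℤ) else 0)) =
        (if g = 1 then (l : ℤ) else 0) +
          (if g ∈ {g : G | g ∈ W ∧ g ≠ 1} then P.b (ρ g) else 0) := by
      intro g
      rw [Finset.sum_boole]
      by_cases hg : g = 1
      · have hf : (Icc 1 l).filter (fun i => g ∈ ram P ρ i) = Icc 1 l := by
          apply Finset.filter_true_of_mem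
          intro i _
          rw [hg]
          exact one_mem i
        rw [hf, if_pos hg, if_neg (by
          intro h
          exact h.2 hg)]
        rw [Nat.card_Icc]
        simp
      · rw [if_neg hg, zero_add]
        by_cases hgW : g ∈ W
        · rw [if_pos (show g ∈ {g : G | g ∈ W ∧ g ≠ 1} from ⟨hgW, hg⟩)]
          have hf : (Icc 1 l).filter (fun i => g ∈ ram P ρ i) =
              (Icc 1 l).filter (fun i : ℕ => (i : ℤ) ≤ P.b (ρ g)) := by
            apply Finset.filter_congr
            intro i hi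
            rw [mem_Icc] at hi
            rw [hmemi i hi.1 g]
            constructor
            · intro h
              rcases h with h | h
              · exact absurd h hg
              · exact h.2.2
            · intro h
              exact Or.inr ⟨hgW, hg, h⟩
          rw [hf]
          have hb := hWb g hgW hg
          exact con_card _ _ hb.2.1 hb.2.2
        · rw [if_neg (fun h : g ∈ {g : G | g ∈ W ∧ g ≠ 1} => hgW h.1)]
          have hf : (Icc 1 l).filter (fun i => g ∈ ram P ρ i) = ∅ := by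
            apply Finset.filter_false_of_mem
            intro i hi h
            rw [mem_Icc] at hi
            rcases (hmemi i hi.1 g).1 h with h | h
            · exact hg h
            · exact hgW h.1
          rw [hf]
          simp
    have hsum : (∑ i ∈ Icc 1 l, ((ram P ρ i).ncard : ℤ)) =
        (l : ℤ) + sm (fun g => P.b (ρ g)) {g : G | g ∈ W ∧ g ≠ 1} := by
      rw [hswap, Finset.sum_congr rfl (fun g _ => hinner g), Finset.sum_add_distrib]
      rw [Finset.sum_ite_eq' univ (1 : G) (fun _ => (l : ℤ)), if_pos (mem_univ _)]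
      rw [← Finset.sum_filter]
      unfold sm
      refine congrArg (fun z : ℤ => (l : ℤ) + z) ?_
      refine Finset.sum_congr ?_ (fun _ _ => rfl)
      ext g
      simp only [mem_filter]
    have hsumQ : (∑ i ∈ Icc 1 l, ((ram P ρ i).ncard : ℚ)) =
        (((l : ℤ) : ℚ) + ((sm (fun g => P.b (ρ g)) {g : G | g ∈ W ∧ g ≠ 1} : ℤ) : ℚ)) := by
      have := congrArg (fun z : ℤ => (z : ℚ)) hsum
      push_cast at this
      push_cast
      exact this
    rw [hcc, hsumQ, ← hcardI]
    unfold U
    rw [mul_div_cancel₀ _ hIpos, mul_div_cancel₀ _ hWpos]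

end Pool.CND
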